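import Pool.Agent.Lib.MP_65b7ad_nt.DL.Low
import Pool.Agent.Lib.MP_65b7ad_nt.DU.All

/-! Diagonal plane cubics: the sharp bounds put together. -/

namespace Pool.Agent.Lib.MP_65b7ad_nt.DL

open DC

theorem count : ∃ C : ℝ, ∀ H : ℕ, 16 ≤ H → ((Tr (SolIn ℤ) H).ncard : ℝ) ≤
    C * ((H : ℝ) ^ 3 / Real.log H ^ 2) := DU.finA DU.up2All

theorem hasse : ∃ C : ℝ, ∀ H : ℕ, 16 ≤ H →
    ((Tr (SolIn ℤ) H).ncard : ℝ) ≤ C * ((Tr Loc H).ncard / Real.log H) := by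
  obtain ⟨C, h⟩ := DU.finB DU.up2All (fun H => Real.log H)
    (fun H hH => by linarith [(Last.ll hH).1]) low2
  refine ⟨C, fun H hH => (h H hH).trans_eq ?_⟩
  have := (Last.ll hH).1
  field_simp

end Pool.Agent.Lib.MP_65b7ad_nt.DL
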