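import Pool.Agent.Lib.MP_65b7ad_nt.DC.Cnt

/-!
Diagonal plane cubics, sharp lower bound: the number of admissible residue classes.
-/

open Finset

noncomputable section

namespace Pool.Agent.Lib.MP_65b7ad_nt.DL

open Classical DC

/-- The conditions on a large prime. -/
def Adm (s : ℕ) (S : Finset ℕ) (τ : ℕ → ℕ) (n : ℕ) : Prop :=
  (n % 3 = 2 ∧ (s * n % 27 = 1 ∨ s * n % 27 = 26)) ∧
    ∀ l ∈ S, ¬ l ∣ n ∧ (l % 3 = 1 → pw l (s * n) = pw l (τ l))

namespace Cls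

theorem crt {a b : ℕ} (h : a.Coprime b) (ha : 0 < a) (hb : 0 < b) (Q R : ℕ → Prop)
    (hQ : ∀ n m, n ≡ m [MOD a] → Q m → Q n) (hR : ∀ n m, n ≡ m [MOD b] → R m → R n) :
    #{n ∈ range a | Q n} * #{n ∈ range b | R n} ≤ #{n ∈ range (a * b) | Q n ∧ R n} := by
  rw [← card_product]
  refine card_le_card_of_injOn (fun u => (Nat.chineseRemainder h u.1 u.2 : ℕ)) ?_ ?_
  · intro u hu
    simp only [coe_product, coe_filter, Set.mem_prod, Set.mem_ofPred_eq, mem_range] at hu ⊢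
    exact ⟨Nat.chineseRemainder_lt_mul h _ _ ha.ne' hb.ne',
      hQ _ _ (Nat.chineseRemainder h u.1 u.2).2.1 hu.1.2,
      hR _ _ (Nat.chineseRemainder h u.1 u.2).2.2 hu.2.2⟩
  · intro u hu v hv e
    simp only [coe_product, coe_filter, Set.mem_prod, Set.mem_ofPred_eq, mem_range] at hu hv e
    have a1 := (Nat.chineseRemainder h u.1 u.2).2
    have a2 := (Nat.chineseRemainder h v.1 v.2).2
    rw [e] at a1
    exact Prod.ext ((a1.1.symm.trans a2.1).eq_of_lt_of_lt hu.1.1 hv.1.1)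
      ((a1.2.symm.trans a2.2).eq_of_lt_of_lt hu.2.1 hv.2.1)

theorem pw_mod {l s n m : ℕ} (h : n ≡ m [MOD l]) : pw l (s * n) = pw l (s * m) := by
  rw [pw, pw, (ZMod.natCast_eq_natCast_iff _ _ _).2 (h.mul_left s)]

theorem one {l s t : ℕ} (hl : l.Prime) (hs : ¬ l ∣ s) (ht : ¬ l ∣ t) :
    l - 1 ≤ (if l % 3 = 1 then 3 else 1) *
      #{n ∈ range l | ¬ l ∣ n ∧ (l % 3 = 1 → pw l (s * n) = pw l t)} := by
  have := Fact.mk hl
  have s0 : (s : ZMod l) ≠ 0 := fun h => hs ((ZMod.natCast_eq_zero_iff s l).1 h)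
  have t0 : (t : ZMod l) ≠ 0 := fun h => ht ((ZMod.natCast_eq_zero_iff t l).1 h)
  have hc : #((univ : Finset (ZMod l)).erase 0) = l - 1 := by
    rw [card_erase_of_mem (mem_univ _), card_univ, ZMod.card]
  have nd : ∀ x : ZMod l, x ≠ 0 → ¬ l ∣ x.val := fun x hx d =>
    hx (by rw [← ZMod.natCast_zmod_val x]; exact (ZMod.natCast_eq_zero_iff _ _).2 d)
  rw [← hc]
  split_ifs with h1
  · refine card_le_mul_card_image_of_maps_to (f := fun x : ZMod l => (t / s * x ^ 3 : ZMod l).val)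
      (fun x hx => ?_) 3 fun b _ => ?_
    · have x0 := ne_of_mem_erase hx
      refine mem_filter.2 ⟨mem_range.2 (ZMod.val_lt _),
        nd _ (mul_ne_zero (div_ne_zero t0 s0) (pow_ne_zero _ x0)), fun _ => ?_⟩
      rw [pw, pw, Nat.cast_mul, ZMod.natCast_zmod_val, ← mul_assoc, mul_div_cancel₀ _ s0, mul_pow,
        ← pow_mul, show 3 * ((l - 1) / 3) = l - 1 by omega, ZMod.pow_card_sub_one_eq_one x0,
        mul_one]
    · refine le_trans ?_ (le_trans (Multiset.toFinset_card_le _)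
        (Polynomial.card_nthRoots 3 ((b : ZMod l) * s / t)))
      refine card_le_card fun x hx => ?_
      rw [Multiset.mem_toFinset, Polynomial.mem_nthRoots (by norm_num), ← (mem_filter.1 hx).2,
        ZMod.natCast_zmod_val]
      field_simp
  · rw [one_mul]
    refine card_le_card_of_injOn ZMod.val (fun x hx => ?_) (ZMod.val_injective l).injOn
    simp only [coe_filter, Set.mem_ofPred_eq, mem_range]
    exact ⟨ZMod.val_lt _, nd _ (ne_of_mem_erase (mem_coe.1 hx)), fun h => absurd h h1⟩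

theorem base {s : ℕ} (hs : ¬ 3 ∣ s) :
    1 ≤ #{n ∈ range 27 | n % 3 = 2 ∧ (s * n % 27 = 1 ∨ s * n % 27 = 26)} := by
  refine card_pos.2 ?_
  have key : ∀ r < 27, ¬ 3 ∣ r → ∃ n < 27, n % 3 = 2 ∧ (r * n % 27 = 1 ∨ r * n % 27 = 26) := by
    decide
  obtain ⟨n, h1, h2⟩ := key (s % 27) (Nat.mod_lt _ (by norm_num)) (by omega)
  refine ⟨n, mem_filter.2 ⟨mem_range.2 h1, ?_⟩⟩
  rwa [Nat.mul_mod s, ← Nat.mod_mod s, ← Nat.mul_mod]

end Cls

theorem Adm.mod {s n m : ℕ} {S : Finset ℕ} {τ : ℕ → ℕ} (h : n ≡ m [MOD 27 * ∏ l ∈ S, l])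
    (hm : Adm s S τ m) : Adm s S τ n := by
  have h27 : n ≡ m [MOD 27] := h.of_mul_right _
  refine ⟨⟨?_, ?_⟩, fun l hl => ?_⟩
  · rw [show n % 3 = m % 3 from h27.of_dvd (by norm_num)]
    exact hm.1.1
  · rw [show s * n % 27 = s * m % 27 from h27.mul_left s]
    exact hm.1.2
  · have hl' : n ≡ m [MOD l] := h.of_dvd ((dvd_prod_of_mem _ hl).mul_left _)
    rw [Cls.pw_mod hl', hl'.dvd_iff dvd_rfl]
    exact hm.2 l hl

theorem Adm.cop {s n : ℕ} {S : Finset ℕ} {τ : ℕ → ℕ} (hS : ∀ l ∈ S, l.Prime)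
    (h : Adm s S τ n) : n.Coprime (27 * ∏ l ∈ S, l) := by
  refine Nat.Coprime.mul_right ?_ (Nat.Coprime.prod_right fun l hl =>
    ((hS l hl).coprime_iff_not_dvd.2 (h.2 l hl).1).symm)
  have := h.1.1
  exact Nat.Coprime.pow_right 3 ((Nat.prime_three.coprime_iff_not_dvd.2 (by omega)).symm)

open Cls in
theorem cls {s : ℕ} (τ : ℕ → ℕ) (hs : ¬ 3 ∣ s) (S : Finset ℕ)
    (hS : ∀ l ∈ S, l.Prime ∧ l ≠ 3 ∧ ¬ l ∣ s ∧ ¬ l ∣ τ l) :
    ∏ l ∈ S, (l - 1) ≤ 3 ^ #{l ∈ S | l % 3 = 1} * #{n ∈ range (27 * ∏ l ∈ S, l) | Adm s S τ n} := by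
  induction S using Finset.induction_on with
  | empty => simpa [Adm] using base hs
  | insert a T ha ih =>
    obtain ⟨a1, a2, a3, a4⟩ := hS a (mem_insert_self _ _)
    have h2 := fun l hl => hS l (mem_insert_of_mem (b := a) hl)
    have p0 : 0 < 27 * ∏ l ∈ T, l := Nat.mul_pos (by norm_num) (prod_pos fun l hl => (h2 l hl).1.pos)
    have c : (27 * ∏ l ∈ T, l).Coprime a := Nat.Coprime.mul_left
      (Nat.Coprime.pow_left 3 ((Nat.coprime_primes Nat.prime_three a1).2 a2.symm))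
      (Nat.Coprime.prod_left fun l hl => (Nat.coprime_primes (h2 l hl).1 a1).2 fun e => ha (e ▸ hl))
    have k := crt c p0 a1.pos (Adm s T τ)
      (fun n => ¬ a ∣ n ∧ (a % 3 = 1 → pw a (s * n) = pw a (τ a))) (fun n m => Adm.mod)
      (fun n m h hm => by rwa [pw_mod h, h.dvd_iff dvd_rfl])
    have e1 : (3 : ℕ) ^ #{l ∈ insert a T | l % 3 = 1} =
        (if a % 3 = 1 then 3 else 1) * 3 ^ #{l ∈ T | l % 3 = 1} := by
      rw [filter_insert]
      split_ifs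
      · rw [card_insert_of_notMem (fun h => ha (mem_filter.1 h).1), pow_succ']
      · rw [one_mul]
    have e2 : {n ∈ range (27 * ∏ l ∈ insert a T, l) | Adm s (insert a T) τ n} =
        {n ∈ range (27 * (∏ l ∈ T, l) * a) | Adm s T τ n ∧
          ¬ a ∣ n ∧ (a % 3 = 1 → pw a (s * n) = pw a (τ a))} := by
      rw [prod_insert ha, mul_comm a, mul_assoc]
      refine filter_congr fun n _ => ?_
      simp only [Adm, forall_mem_insert]
      tauto
    rw [prod_insert ha, e1, e2]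
    refine (Nat.mul_le_mul (one a1 a3 a4) (ih h2)).trans ?_
    rw [mul_mul_mul_comm]
    refine Nat.mul_le_mul_left _ ?_
    rw [mul_comm]
    convert k

end Pool.Agent.Lib.MP_65b7ad_nt.DL
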