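import Pool.Agent.Lib.MP_65b7ad_nt.DC.NN
import Pool.Agent.Lib.MP_65b7ad_nt.DC.Good

/-!
Diagonal plane cubics, sharp lower bound: the mass of the small parts.
-/

open Finset Filter ArithmeticFunction

noncomputable section

namespace Pool.Agent.Lib.MP_65b7ad_nt.DL

open Classical DC

/-- The family of small parts. -/
def Fam (D : ℕ) : Finset (ℕ × ℕ × ℕ) :=
  {t ∈ Box D | Squarefree (t.1 * t.2.1 * t.2.2) ∧ ¬ 3 ∣ t.1 * t.2.1 * t.2.2}

/-- The weight of a small part. -/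
def G (n : ℕ) : ℝ := 1 / (n * 3 ^ om1 n)

namespace Mass

theorem mom (w l : ℕ → ℝ) (hw : ∀ p, 0 ≤ w p) (hl : ∀ p, 0 ≤ l p) (P : Finset ℕ) :
    ∑ S ∈ P.powerset, (∏ p ∈ S, w p) * ∑ p ∈ S, l p ≤
      (∑ p ∈ P, w p * l p) * ∏ p ∈ P, (1 + w p) := by
  induction P using Finset.induction_on with
  | empty => simp
  | insert a T ha ih =>
    have e : ∑ S ∈ T.powerset, (∏ p ∈ insert a S, w p) * ∑ p ∈ insert a S, l p =
        w a * l a * ∏ p ∈ T, (1 + w p) + w a * ∑ S ∈ T.powerset, (∏ p ∈ S, w p) * ∑ p ∈ S, l p := by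
      rw [prod_one_add, mul_sum, mul_sum, ← sum_add_distrib]
      refine sum_congr rfl fun S hS => ?_
      have : a ∉ S := fun h => ha (mem_powerset.1 hS h)
      rw [prod_insert this, sum_insert this]
      ring
    rw [sum_powerset_insert ha, e, sum_insert ha, prod_insert ha]
    have p0 : 0 ≤ ∏ p ∈ T, (1 + w p) := prod_nonneg fun p _ => by linarith [hw p]
    have := mul_le_mul_of_nonneg_left ih (hw a)
    have := mul_nonneg (mul_nonneg (mul_nonneg (hw a) (hl a)) (hw a)) p0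
    nlinarith

theorem mk (w : ℕ → ℝ) (hw : ∀ p, 0 ≤ w p) (P : Finset ℕ) (hP : ∀ p ∈ P, 0 < p) {D : ℕ}
    (hD : 2 ≤ D) (h : ∑ p ∈ P, w p * Real.log p ≤ Real.log D / 2) :
    (∏ p ∈ P, (1 + w p)) / 2 ≤ ∑ S ∈ P.powerset with ∏ p ∈ S, p ≤ D, ∏ p ∈ S, w p := by
  have l0 : 0 < Real.log D := Real.log_pos (by exact_mod_cast hD)
  have h1 := mom w (fun p => Real.log p) hw (fun p => Real.log_natCast_nonneg p) P
  have p0 : 0 ≤ ∏ p ∈ P, (1 + w p) := prod_nonneg fun p _ => by linarith [hw p]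
  have h2 := sum_filter_add_sum_filter_not P.powerset (fun S => ∏ p ∈ S, p ≤ D)
    fun S => ∏ p ∈ S, w p
  rw [← prod_one_add] at h2
  have h3 : (∑ S ∈ P.powerset with ¬ ∏ p ∈ S, p ≤ D, ∏ p ∈ S, w p) * Real.log D ≤
      ∑ S ∈ P.powerset, (∏ p ∈ S, w p) * ∑ p ∈ S, Real.log p := by
    rw [sum_mul, sum_filter]
    refine sum_le_sum fun S hS => ?_
    have w0 : 0 ≤ ∏ p ∈ S, w p := prod_nonneg fun p _ => hw p
    split_ifs with a
    · exact mul_nonneg w0 (sum_nonneg fun p _ => Real.log_natCast_nonneg p)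
    · refine mul_le_mul_of_nonneg_left ?_ w0
      rw [← Real.log_prod fun p hp => by exact_mod_cast (hP p (mem_powerset.1 hS hp)).ne',
        ← Nat.cast_prod]
      exact Real.log_le_log (by positivity) (by exact_mod_cast (not_le.1 a).le)
  have h4 := h3.trans (h1.trans (mul_le_mul_of_nonneg_right h p0))
  have h5 : (∑ S ∈ P.powerset with ¬ ∏ p ∈ S, p ≤ D, ∏ p ∈ S, w p) ≤ (∏ p ∈ P, (1 + w p)) / 2 :=
    le_of_mul_le_mul_right (by linarith) l0
  linarith

theorem fibre {n D : ℕ} (hn : Squarefree n) (h3 : ¬ 3 ∣ n) (hD : n ≤ D) :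
    3 ^ #n.primeFactors ≤ #{t ∈ Fam D | t.1 * t.2.1 * t.2.2 = n} := by
  have m : (zeta * zeta * zeta).IsMultiplicative :=
    (isMultiplicative_zeta.mul isMultiplicative_zeta).mul isMultiplicative_zeta
  have e1 : ∀ k, (zeta * zeta * zeta) k = ∑ d ∈ k.divisors, #d.divisors := fun k => by
    rw [mul_zeta_apply]
    refine sum_congr rfl fun d _ => ?_
    rw [mul_zeta_apply, card_eq_sum_ones]
    exact sum_congr rfl fun e he => zeta_apply_ne (Nat.pos_of_mem_divisors he).ne'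
  have e2 := m.prod_primeFactors hn
  rw [prod_congr rfl (g := fun _ => 3) fun p hp => by
    rw [e1, (Nat.prime_of_mem_primeFactors hp).sum_divisors,
      (Nat.prime_of_mem_primeFactors hp).divisors, card_pair
        (Nat.prime_of_mem_primeFactors hp).one_lt.ne]
    simp, prod_const, e1, ← card_sigma] at e2
  rw [e2]
  refine card_le_card_of_injOn (fun x => (x.2, x.1 / x.2, n / x.1)) (fun x hx => ?_) ?_
  · simp only [mem_coe, mem_sigma, Nat.mem_divisors] at hx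
    have e : x.2 * (x.1 / x.2) * (n / x.1) = n := by
      rw [Nat.mul_div_cancel' hx.2.1, Nat.mul_div_cancel' hx.1.1]
    have n0 := Nat.pos_of_ne_zero hn.ne_zero
    have b : ∀ y, y ∣ n → 1 ≤ y ∧ y ≤ D := fun y hy =>
      ⟨Nat.pos_of_dvd_of_pos hy n0, (Nat.le_of_dvd n0 hy).trans hD⟩
    simp only [Fam, mem_coe, mem_filter, Good.mem_Box, e]
    exact ⟨⟨⟨b _ (hx.2.1.trans hx.1.1), b _ ((Nat.div_dvd_of_dvd hx.2.1).trans hx.1.1),
      b _ (Nat.div_dvd_of_dvd hx.1.1)⟩, hn, h3⟩, trivial⟩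
  · rintro ⟨a, b⟩ hx ⟨c, d⟩ hy e
    simp only [mem_coe, mem_sigma, Nat.mem_divisors] at hx hy
    simp only [Prod.mk.injEq] at e
    obtain ⟨rfl, e2, -⟩ := e
    have : a = c := by rw [← Nat.mul_div_cancel' hx.2.1, e2, Nat.mul_div_cancel' hy.2.1]
    subst this
    rfl

/-- The weight of a prime. -/
def w (p : ℕ) : ℝ := (if p % 3 = 1 then 1 else 3) / p

theorem w_nonneg (p : ℕ) : 0 ≤ w p := by
  unfold w
  split_ifs <;> positivity

theorem w_le (p : ℕ) : w p ≤ 3 / p := by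
  unfold w
  gcongr
  split_ifs <;> norm_num

theorem sets (P : Finset ℕ) (hP : ∀ p ∈ P, p.Prime ∧ p ≠ 3) (D : ℕ) :
    ∑ S ∈ P.powerset with ∏ p ∈ S, p ≤ D, ∏ p ∈ S, w p ≤ ∑ t ∈ Fam D, G (t.1 * t.2.1 * t.2.2) := by
  have G0 : ∀ n, 0 ≤ G n := fun n => by unfold G; positivity
  have pf : ∀ S ∈ {S ∈ P.powerset | ∏ p ∈ S, p ≤ D}, (∏ p ∈ S, p).primeFactors = S := fun S hS =>
    Nat.primeFactors_prod fun p hp => (hP p (mem_powerset.1 (mem_filter.1 hS).1 hp)).1
  refine le_trans ?_ (sum_fiberwise_le_sum_of_sum_fiber_nonneg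
    (t := {S ∈ P.powerset | ∏ p ∈ S, p ≤ D}.image fun S => ∏ p ∈ S, p)
    (g := fun t => t.1 * t.2.1 * t.2.2) fun y _ => sum_nonneg fun t _ => G0 _)
  rw [sum_image fun S hS T hT e => by rw [← pf S hS, ← pf T hT]; exact congrArg _ e]
  refine sum_le_sum fun S hS => ?_
  have hS' := fun p hp => hP p (mem_powerset.1 (mem_filter.1 hS).1 hp)
  have f := fibre (n := ∏ p ∈ S, p) (D := D) (Finset.squarefree_prod_of_pairwise_isCoprime
    (fun p hp q hq e => Nat.coprime_iff_isRelPrime.1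
      ((Nat.coprime_primes (hS' p hp).1 (hS' q hq).1).2 e))
    fun p hp => (hS' p hp).1.squarefree) (fun d => (hS' 3 (pf S hS ▸ Nat.mem_primeFactors.2
      ⟨Nat.prime_three, d, prod_ne_zero_iff.2 fun p hp => (hS' p hp).1.ne_zero⟩)).2 rfl)
    (mem_filter.1 hS).2
  rw [sum_congr rfl (g := fun _ => G (∏ p ∈ S, p)) fun t ht => by rw [(mem_filter.1 ht).2],
    sum_const, nsmul_eq_mul]
  refine le_trans (le_of_eq ?_) (mul_le_mul_of_nonneg_right (Nat.cast_le.2 f) (G0 _))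
  rw [G, om1, pf S hS, ← card_filter_add_card_filter_not (s := S) fun l => l % 3 = 1]
  simp only [w]
  rw [prod_div_distrib, prod_ite, prod_const_one, prod_const, Nat.cast_prod]
  have : (∏ p ∈ S, (p : ℝ)) ≠ 0 := prod_ne_zero_iff.2 fun p hp => by
    exact_mod_cast (hS' p hp).1.ne_zero
  push_cast
  field_simp
  ring

theorem pl (f : ℕ → ℝ) (z : ℕ) :
    ∑ n ∈ Ioc 0 z, (if n.Prime then f n else 0) = ∑ p ∈ PL z, f p := by
  rw [← sum_filter]
  refine sum_congr ?_ fun _ _ => rfl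
  ext p
  simp only [PL, mem_filter, mem_Ioc, mem_range]
  exact ⟨fun h => ⟨by omega, h.2⟩, fun h => ⟨⟨h.2.pos, by omega⟩, h.2⟩⟩

theorem eul : ∃ c : ℝ, 0 < c ∧ ∀ y : ℕ, 2 ≤ y →
    c * Real.log y ^ 2 ≤ ∏ p ∈ (PL y).erase 3, (1 + w p) := by
  obtain ⟨C1, h1⟩ := NNa.sum_P1
  obtain ⟨C2, -, h2⟩ := MP_a3b3a7_nt.Mert.S_bound
  refine ⟨Real.exp (-(3 * C2 + 2 * C1 + 21)), Real.exp_pos _, fun y hy => ?_⟩
  have l0 : 0 < Real.log y := Real.log_pos (by exact_mod_cast hy)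
  have a1 := h1 y hy
  have a2 := (abs_le.1 (h2 y hy)).1
  rw [MP_a3b3a7_nt.Mert.S, pl fun n => 1 / (n : ℝ)] at a2
  have a3 : ∑ p ∈ PL y, (3 * (1 / p) - 2 * (if p % 3 ≠ 2 then (1 : ℝ) / p else 0) : ℝ) ≤
      ∑ p ∈ PL y, w p := sum_le_sum fun p hp => by
    unfold w
    have : (0 : ℝ) ≤ 1 / p := by positivity
    split_ifs with c1 c2 c2
    · linarith
    · rw [div_eq_mul_one_div 3]
      linarith
    · omega
    · rw [div_eq_mul_one_div 3]
      linarith
  rw [sum_sub_distrib, ← mul_sum, ← mul_sum, ← sum_filter] at a3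
  have a4 : ∑ p ∈ PL y, w p ≤ ∑ p ∈ (PL y).erase 3, w p + 3 := by
    by_cases c : 3 ∈ PL y
    · rw [← sum_erase_add _ _ c]
      linarith [w_le 3, show (3 : ℝ) / (3 : ℕ) = 1 by norm_num]
    · rw [erase_eq_of_notMem c]
      linarith
  have a5 : ∑ p ∈ (PL y).erase 3, w p ^ 2 ≤ 18 := by
    have s := sum_Ioo_inv_sq_le (α := ℝ) 0 (y + 1)
    calc _ ≤ ∑ p ∈ (PL y).erase 3, 9 * ((p : ℝ) ^ 2)⁻¹ := sum_le_sum fun p _ => by
          refine (pow_le_pow_left₀ (w_nonneg p) (w_le p) 2).trans (le_of_eq ?_)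
          rw [div_pow]
          norm_num [div_eq_mul_inv]
      _ ≤ ∑ p ∈ Ioo 0 (y + 1), 9 * ((p : ℝ) ^ 2)⁻¹ :=
          sum_le_sum_of_subset_of_nonneg (fun p hp => by
            have := mem_filter.1 (mem_of_mem_erase hp)
            exact mem_Ioo.2 ⟨this.2.pos, mem_range.1 this.1⟩) fun p _ _ => by positivity
      _ ≤ _ := by
          rw [← mul_sum]
          norm_num at s ⊢
          linarith
  calc _ = Real.exp (2 * Real.log (Real.log y) - (3 * C2 + 2 * C1 + 21)) := by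
        rw [sub_eq_neg_add, Real.exp_add, show 2 * Real.log (Real.log y) =
          ((2 : ℕ) : ℝ) * Real.log (Real.log y) by norm_num, Real.exp_nat_mul, Real.exp_log l0]
    _ ≤ Real.exp (∑ p ∈ (PL y).erase 3, (w p - w p ^ 2)) := by
        rw [Real.exp_le_exp, sum_sub_distrib]
        change ∑ p ∈ PL y with p % 3 ≠ 2, (1 : ℝ) / p ≤ _ at a1
        linarith
    _ ≤ _ := by
        rw [Real.exp_sum]
        refine prod_le_prod (fun p _ => (Real.exp_pos _).le) fun p _ => ?_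
        have w0 := w_nonneg p
        have e := Real.add_one_le_exp (-(w p - w p ^ 2))
        rw [Real.exp_neg, le_inv_comm₀ (by nlinarith) (Real.exp_pos _)] at e
        refine e.trans (inv_le_of_inv_le₀ (by linarith) ?_)
        rw [inv_le_iff_one_le_mul₀ (by linarith)]
        nlinarith [mul_nonneg w0 (mul_nonneg w0 w0)]

end Mass

open Mass in
theorem mass : ∃ c : ℝ, 0 < c ∧ ∀ᶠ D : ℕ in atTop,
    c * Real.log D ^ 2 ≤ ∑ t ∈ Fam D, G (t.1 * t.2.1 * t.2.2) := by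
  obtain ⟨c, c0, h⟩ := eul
  obtain ⟨C, C0, hA⟩ := MP_a3b3a7_nt.Mert.A_bound
  refine ⟨c / 24 ^ 2 / 2, by positivity, ?_⟩
  filter_upwards [(Real.tendsto_log_atTop.comp tendsto_natCast_atTop_atTop).eventually
    (eventually_ge_atTop (max (12 * C) 24)), eventually_ge_atTop 2] with D hL hD
  simp only [Function.comp, max_le_iff] at hL
  set y := ⌊Real.exp (Real.log D / 12)⌋₊ with hy
  have e1 := Real.add_one_le_exp (Real.log D / 24)
  have e2 : Real.exp (Real.log D / 12) = Real.exp (Real.log D / 24) * Real.exp (Real.log D / 24) := by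
    rw [← Real.exp_add]; congr 1; ring
  have y1 : (y : ℝ) ≤ Real.exp (Real.log D / 12) := Nat.floor_le (Real.exp_pos _).le
  have y2 : Real.exp (Real.log D / 24) ≤ y := by
    have := Nat.lt_floor_add_one (Real.exp (Real.log D / 12))
    rw [← hy] at this
    nlinarith
  have y3 : 2 ≤ y := by exact_mod_cast (by linarith : (2 : ℝ) ≤ y)
  have y4 : Real.log y ≤ Real.log D / 12 := (Real.log_le_iff_le_exp (by positivity)).2 y1
  have y5 : Real.log D / 24 ≤ Real.log y := (Real.le_log_iff_exp_le (by positivity)).2 y2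
  have hP : ∀ p ∈ (PL y).erase 3, p.Prime ∧ p ≠ 3 := fun p hp =>
    ⟨(mem_filter.1 (mem_of_mem_erase hp)).2, ne_of_mem_erase hp⟩
  refine le_trans ?_ ((mk w w_nonneg _ (fun p hp => (hP p hp).1.pos) hD ?_).trans (sets _ hP D))
  · calc _ = c * (Real.log D / 24) ^ 2 / 2 := by ring
      _ ≤ c * Real.log y ^ 2 / 2 := by gcongr
      _ ≤ _ := by linarith [h y y3]
  · have a := (hA y).2
    rw [MP_a3b3a7_nt.Mert.A, pl fun n => Real.log n / n] at a
    calc _ ≤ ∑ p ∈ (PL y).erase 3, 3 * (Real.log p / p) := sum_le_sum fun p _ => by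
          refine (mul_le_mul_of_nonneg_right (w_le p) (Real.log_natCast_nonneg p)).trans_eq ?_
          ring
      _ ≤ ∑ p ∈ PL y, 3 * (Real.log p / p) :=
          sum_le_sum_of_subset_of_nonneg (erase_subset _ _) fun p _ _ => by
            have := Real.log_natCast_nonneg p
            positivity
      _ ≤ _ := by
          rw [← mul_sum]
          linarith

end Pool.Agent.Lib.MP_65b7ad_nt.DL
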