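import Pool.Agent.Lib.MP_65b7ad_nt.DL.PC
import Pool.Agent.Lib.MP_65b7ad_nt.DL.Mass
import Pool.Agent.Lib.MP_65b7ad_nt.DC.Loc

/-!
Diagonal plane cubics: the sharp lower bound for the number of locally soluble triples.
-/

open Finset Filter

noncomputable section

namespace Pool.Agent.Lib.MP_65b7ad_nt.DL

open Classical DC DC.LocAux

namespace Low

theorem three' (a b : ℕ) (ha : a % 27 = 1 ∨ a % 27 = 26) (hb : b % 27 = 1 ∨ b % 27 = 26) :
    ∀ c : ℤ, SolIn ℚ_[3] a b c := fun c => by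
    by_cases h : a % 27 = b % 27
    · exact sol12 (three a b (by omega) h)
    · obtain ⟨X, hX⟩ := three (a * a) (b * b) (by
        intro d
        have := (Nat.prime_three.dvd_mul.1 d).elim id id
        omega) (by
        rw [Nat.mul_mod a, Nat.mul_mod b]
        rcases ha with h | h <;> rcases hb with h' | h' <;> rw [h, h'])
      have a0 : ((a : ℤ) : ℚ_[3]) ≠ 0 := by exact_mod_cast (by omega : a ≠ 0)
      have b0 : ((b : ℤ) : ℚ_[3]) ≠ 0 := by exact_mod_cast (by omega : b ≠ 0)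
      have X0 : X ≠ 0 := by
        rintro rfl
        apply mul_ne_zero b0 b0
        push_cast at hX ⊢
        linear_combination -hX
      refine sol12 ⟨(b : ℤ) / ((a : ℤ) * X), ?_⟩
      push_cast at hX a0 b0 ⊢
      field_simp
      linear_combination -hX

theorem cub {l : ℕ} [hp : Fact l.Prime] (h1 : l % 3 = 1) {u v : ℕ} (hu : ¬ l ∣ u) (hv : ¬ l ∣ v)
    (h : pw l u = pw l v) : ∃ X : ℚ_[l], ((u : ℤ) : ℚ_[l]) * X ^ 3 = ((v : ℤ) : ℚ_[l]) := by
  have hu' : ((u : ℤ) : ZMod l) ≠ 0 := by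
    rw [Int.cast_natCast, Ne, ZMod.natCast_eq_zero_iff]; exact hu
  have hv' : ((v : ℤ) : ZMod l) ≠ 0 := by
    rw [Int.cast_natCast, Ne, ZMod.natCast_eq_zero_iff]; exact hv
  obtain ⟨x, hx⟩ := cube_one l h1 _ (div_ne_zero hv' hu') (by
    rw [pw, pw, show (l - 1) / 3 = l / 3 by omega] at h
    rw [div_pow, Int.cast_natCast, Int.cast_natCast, ← h]
    exact div_self (pow_ne_zero _ (by simpa using hu')))
  exact two_of_cube l (by rintro rfl; omega) u v hu' hv' x hx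

theorem loc2 {a b c : ℕ} (ha : Squarefree a) (hb : Squarefree b) (hc : Squarefree c)
    (a3 : a % 27 = 1 ∨ a % 27 = 26) (b3 : b % 27 = 1 ∨ b % 27 = 26)
    (h : ∀ l : ℕ, l.Prime → l % 3 = 1 → (l ∣ a → ¬ l ∣ b ∧ ¬ l ∣ c ∧ pw l c = pw l b) ∧
      (l ∣ b → ¬ l ∣ a ∧ ¬ l ∣ c ∧ pw l c = pw l a) ∧
      (l ∣ c → ¬ l ∣ a ∧ ¬ l ∣ b ∧ pw l b = pw l a)) : Loc a b c := by
  refine ⟨sol12 ?_, fun p hp => ?_⟩
  · have a0 : (0 : ℝ) < a := by exact_mod_cast Nat.pos_of_ne_zero ha.ne_zero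
    refine ⟨((b : ℝ) / a) ^ ((3 : ℕ) : ℝ)⁻¹, ?_⟩
    rw [Real.rpow_inv_natCast_pow (by positivity) (by norm_num)]
    push_cast
    field_simp
  by_cases h2 : p % 3 = 2
  · by_cases q1 : p ∣ a ↔ p ∣ b
    · exact sol12 (two p h2 a b ha hb q1)
    by_cases q2 : p ∣ a ↔ p ∣ c
    · exact sol13 (two p h2 a c ha hc q2)
    exact sol23 (two p h2 b c hb hc (by tauto))
  by_cases h1 : p % 3 = 1
  · obtain ⟨k1, k2, k3⟩ := h p hp.out h1
    by_cases d1 : p ∣ a
    · exact sol23 (cub h1 (k1 d1).1 (k1 d1).2.1 (k1 d1).2.2.symm)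
    by_cases d2 : p ∣ b
    · exact sol13 (cub h1 d1 (k2 d2).2.1 (k2 d2).2.2.symm)
    by_cases d3 : p ∣ c
    · exact sol12 (cub h1 d1 d2 (k3 d3).2.2.symm)
    refine one p h1 a b c ?_ ?_ ?_ <;>
      rwa [Int.cast_natCast, Ne, ZMod.natCast_eq_zero_iff]
  have h3 : p = 3 := by
    have : 3 ∣ p := by omega
    exact ((Nat.prime_dvd_prime_iff_eq Nat.prime_three hp.out).1 this).symm
  subst h3
  exact three' a b a3 b3 c

theorem tau (D : ℕ) : ∑ a ∈ Icc 1 D, (#a.divisors : ℝ) / a ≤ (1 + Real.log D) ^ 2 := by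
  have h := Good.harm D
  have h0 : 0 ≤ ∑ n ∈ Icc 1 D, (1 : ℝ) / n := sum_nonneg fun _ _ => by positivity
  refine le_trans ?_ (pow_le_pow_left₀ h0 h 2)
  rw [sq, sum_mul_sum, ← sum_product']
  refine le_trans (sum_le_sum fun a ha => ?_) (sum_fiberwise_le_sum_of_sum_fiber_nonneg
    (t := Icc 1 D) (g := fun x : ℕ × ℕ => x.1 * x.2) fun y _ => sum_nonneg fun _ _ => by positivity)
  rw [sum_congr rfl (g := fun _ => (1 : ℝ) / a) fun x hx => by
    rw [← (mem_filter.1 hx).2]; push_cast; rw [div_mul_div_comm, one_mul], sum_const, nsmul_eq_mul,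
    mul_one_div]
  gcongr
  obtain ⟨a1, a2⟩ := mem_Icc.1 ha
  refine card_le_card_of_injOn (fun d => (d, a / d)) (fun d hd => ?_)
    fun d _ e _ h => congrArg Prod.fst h
  have hd := Nat.dvd_of_mem_divisors (mem_coe.1 hd)
  simp only [mem_coe, mem_filter, mem_product, mem_Icc]
  exact ⟨⟨⟨Nat.pos_of_dvd_of_pos hd a1, (Nat.le_of_dvd a1 hd).trans a2⟩,
    Nat.div_pos (Nat.le_of_dvd a1 hd) (Nat.pos_of_dvd_of_pos hd a1),
    (Nat.div_le_self _ _).trans a2⟩, Nat.mul_div_cancel' hd⟩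

theorem pairs {D : ℕ} {Bad : ℕ → Prop} {δ K : ℝ} (hK : 0 < K)
    (h : ∑ M ∈ Icc 1 (D ^ 2) with Bad M, (1 : ℝ) / M ≤ δ) :
    ∑ a ∈ Icc 1 D, ∑ b ∈ Icc 1 D, (if Bad (a * b) then (1 : ℝ) / (a * b) else 0) ≤
      K * δ + (1 + Real.log D) ^ 4 / K := by
  have h1 : ∑ x ∈ Icc 1 D ×ˢ Icc 1 D with Bad (x.1 * x.2) ∧ (#(x.1 * x.2).divisors : ℝ) ≤ K,
      (1 : ℝ) / (x.1 * x.2) ≤ K * δ := by
    rw [← sum_fiberwise_of_maps_to (t := {M ∈ Icc 1 (D ^ 2) | Bad M}) (g := fun x => x.1 * x.2)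
      fun x hx => by
        simp only [mem_filter, mem_product, mem_Icc] at hx ⊢
        exact ⟨⟨Nat.mul_pos hx.1.1.1 hx.1.2.1, by
          rw [sq]; exact Nat.mul_le_mul hx.1.1.2 hx.1.2.2⟩, hx.2.1⟩]
    refine le_trans (sum_le_sum fun M hM => ?_) ((mul_sum _ _ _).symm.trans_le
      (mul_le_mul_of_nonneg_left h hK.le))
    rw [sum_congr rfl (g := fun _ => (1 : ℝ) / M) fun x hx => by
      rw [← (mem_filter.1 hx).2]; push_cast; rfl, sum_const, nsmul_eq_mul]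
    refine mul_le_mul_of_nonneg_right ?_ (by positivity)
    have M1 := (mem_Icc.1 (mem_filter.1 hM).1).1
    by_cases c : (#M.divisors : ℝ) ≤ K
    · refine le_trans (Nat.cast_le.2 (card_le_card_of_injOn Prod.fst (fun x hx => ?_)
        fun x hx y hy e => ?_)) c
      · exact mem_coe.2 (Nat.mem_divisors.2 ⟨Dvd.intro _ (mem_filter.1 hx).2, by omega⟩)
      · have e1 := (mem_filter.1 hx).2
        have e2 := (mem_filter.1 hy).2
        refine Prod.ext e (Nat.eq_of_mul_eq_mul_left (n := x.1)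
          (Nat.pos_of_ne_zero fun z => by rw [z] at e1; omega) ?_)
        rw [e1, e, e2]
    · rw [filter_eq_empty_iff.2 fun x hx e => c (by rw [← e]; exact (mem_filter.1 hx).2.2)]
      simpa using hK.le
  have h2 : ∑ x ∈ Icc 1 D ×ˢ Icc 1 D, ((#x.1.divisors : ℝ) / x.1) * ((#x.2.divisors : ℝ) / x.2) / K ≤
      (1 + Real.log D) ^ 4 / K := by
    rw [← sum_div, sum_product' (f := fun a b : ℕ => ((#a.divisors : ℝ) / a) * (#b.divisors / b)),
      ← sum_mul_sum, show 4 = 2 + 2 from rfl, pow_add]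
    have : 0 ≤ ∑ a ∈ Icc 1 D, (#a.divisors : ℝ) / a := sum_nonneg fun _ _ => by positivity
    gcongr <;> exact tau D
  refine le_trans ?_ (add_le_add h1 h2)
  rw [sum_filter, ← sum_add_distrib, ← sum_product']
  refine sum_le_sum fun x _ => ?_
  by_cases c1 : Bad (x.1 * x.2)
  · by_cases c2 : (#(x.1 * x.2).divisors : ℝ) ≤ K
    · rw [if_pos c1, if_pos ⟨c1, c2⟩]
      exact le_add_of_nonneg_right (by positivity)
    · rw [if_pos c1, if_neg fun h => c2 h.2, zero_add, div_mul_div_comm, div_right_comm]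
      gcongr
      rw [le_div_iff₀ hK, one_mul]
      refine (not_le.1 c2).le.trans ?_
      rw [Nat.divisors_mul]
      exact_mod_cast card_mul_le
  · rw [if_neg c1, if_neg fun h => c1 h.1]
    positivity

theorem badm {D : ℕ} {Bad : ℕ → ℕ → Prop} {δ K : ℝ} (hK : 0 < K) (hδ : 0 ≤ δ)
    (h : ∀ s ∈ Icc 1 D, ∑ M ∈ Icc 1 (D ^ 2) with Bad s M, (1 : ℝ) / M ≤ δ) :
    ∑ t ∈ Fam D with Bad t.2.1 t.2.2 ∨ Bad t.2.2 (t.1 * t.2.1), G (t.1 * t.2.1 * t.2.2) ≤
      (1 + Real.log D) ^ 2 * δ + (1 + Real.log D) * (K * δ + (1 + Real.log D) ^ 4 / K) := by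
  have hh := Good.harm D
  have l0 := Real.log_natCast_nonneg D
  have h1 : ∑ t ∈ Box D, (if Bad t.2.1 t.2.2 then (1 : ℝ) / (t.1 * t.2.1 * t.2.2) else 0) ≤
      (1 + Real.log D) ^ 2 * δ := by
    rw [Box, sum_product]
    calc _ ≤ ∑ a ∈ Icc 1 D, (1 : ℝ) / a * ((1 + Real.log D) * δ) := sum_le_sum fun a _ => by
          rw [sum_product]
          calc _ ≤ ∑ b ∈ Icc 1 D, (1 : ℝ) / a * ((1 : ℝ) / b * δ) := sum_le_sum fun b hb => by
                refine le_trans ?_ (mul_le_mul_of_nonneg_left (mul_le_mul_of_nonneg_left (h b hb)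
                  (by positivity)) (by positivity))
                rw [← sum_filter, mul_sum, mul_sum]
                refine le_trans (le_of_eq (sum_congr rfl fun c _ => by
                  rw [div_mul_div_comm, div_mul_div_comm, mul_assoc, one_mul, one_mul]))
                  (sum_le_sum_of_subset_of_nonneg (filter_subset_filter _ (Icc_subset_Icc_right
                    (Nat.le_self_pow two_ne_zero D))) fun _ _ _ => by positivity)
            _ ≤ _ := by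
                rw [← mul_sum, ← sum_mul]
                gcongr
      _ ≤ _ := by
          rw [← sum_mul, sq, mul_assoc]
          gcongr
  have h2 : ∑ t ∈ Box D, (if Bad t.2.2 (t.1 * t.2.1) then (1 : ℝ) / (t.1 * t.2.1 * t.2.2) else 0) ≤
      (1 + Real.log D) * (K * δ + (1 + Real.log D) ^ 4 / K) := by
    rw [Box, sum_product]
    simp only [sum_product]
    rw [sum_congr rfl fun a _ => sum_comm, sum_comm]
    calc _ ≤ ∑ c ∈ Icc 1 D, (1 : ℝ) / c * (K * δ + (1 + Real.log D) ^ 4 / K) :=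
          sum_le_sum fun c hc => by
            refine le_trans (le_of_eq ?_) (mul_le_mul_of_nonneg_left (pairs hK (h c hc))
              (by positivity))
            simp only [mul_sum]
            refine sum_congr rfl fun a _ => sum_congr rfl fun b _ => ?_
            split_ifs
            · rw [div_mul_div_comm, one_mul, mul_comm (c : ℝ)]
            · rw [mul_zero]
      _ ≤ _ := by
          rw [← sum_mul]
          gcongr
  refine le_trans ?_ (add_le_add h1 h2)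
  rw [← sum_add_distrib, sum_filter]
  refine le_trans (sum_le_sum fun t _ => ?_) (sum_le_sum_of_subset_of_nonneg (filter_subset _ _)
    fun _ _ _ => by positivity)
  have g : G (t.1 * t.2.1 * t.2.2) ≤ 1 / (t.1 * t.2.1 * t.2.2) := by
    rw [G, ← div_div]
    push_cast
    exact div_le_self (by positivity) (one_le_pow₀ (by norm_num))
  have : (0 : ℝ) ≤ 1 / (t.1 * t.2.1 * t.2.2) := by positivity
  split_ifs <;> first | linarith | tauto

/-- The conditions for the last prime. -/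
def tr (a A B : ℕ) (l : ℕ) : ℕ := if l ∣ a then B else A

theorem nd {H D s M n l : ℕ} {τ : ℕ → ℕ} (hn : n ∈ Pr H D s M τ) (hl : l.Prime)
    (h : l ≤ D ∨ l % 3 = 1) (hs : ¬ l ∣ s) : ¬ l ∣ s * n := fun d => by
  obtain ⟨h1, h2, -, h3⟩ := mem_filter.1 hn
  have e := (Nat.prime_dvd_prime_iff_eq hl h2).1 ((hl.dvd_mul.1 d).resolve_left hs)
  have := h3.1.1
  have := (mem_Ioc.1 h1).1
  omega

theorem cop {D a b c l : ℕ} (ht : (a, b, c) ∈ Fam D) (hl : l.Prime) :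
    (l ∣ a → l ≠ 3 ∧ l ≤ D ∧ ¬ l ∣ b ∧ ¬ l ∣ c) ∧ (l ∣ b → l ≠ 3 ∧ l ≤ D ∧ ¬ l ∣ a ∧ ¬ l ∣ c) ∧
      (l ∣ c → l ≠ 3 ∧ l ≤ D ∧ ¬ l ∣ a ∧ ¬ l ∣ b) := by
  obtain ⟨h1, h2, h3⟩ := mem_filter.1 ht
  rw [Good.mem_Box] at h1
  dsimp only at h1 h2 h3
  have k : ¬ l * l ∣ a * b * c := fun d => hl.one_lt.ne' (Nat.isUnit_iff.1 (h2 l d))
  have ab : l ∣ a → ¬ l ∣ b := fun x y => k ((mul_dvd_mul x y).mul_right c)
  have ac : l ∣ a → ¬ l ∣ c := fun x y => k (mul_dvd_mul (x.mul_right b) y)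
  have bc : l ∣ b → ¬ l ∣ c := fun x y => k (mul_dvd_mul (x.mul_left a) y)
  exact ⟨fun x => ⟨fun e => h3 (e ▸ (x.mul_right b).mul_right c),
      (Nat.le_of_dvd h1.1.1 x).trans h1.1.2, ab x, ac x⟩,
    fun x => ⟨fun e => h3 (e ▸ (x.mul_left a).mul_right c),
      (Nat.le_of_dvd h1.2.1.1 x).trans h1.2.1.2, fun y => ab y x, bc x⟩,
    fun x => ⟨fun e => h3 (e ▸ x.mul_left _), (Nat.le_of_dvd h1.2.2.1 x).trans h1.2.2.2,
      fun y => ac y x, fun y => bc y x⟩⟩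

theorem sqf {H D s M n : ℕ} {τ : ℕ → ℕ} (hn : n ∈ Pr H D s M τ) (hs : Squarefree s) (h : s ≤ D) :
    Squarefree (s * n) ∧ 1 ≤ s * n ∧ s * n ≤ H := by
  obtain ⟨h1, h2, h3, -⟩ := mem_filter.1 hn
  have s0 := Nat.pos_of_ne_zero hs.ne_zero
  have := (mem_Ioc.1 h1).1
  exact ⟨(Nat.squarefree_mul (h2.coprime_iff_not_dvd.2 fun d => by
    have := Nat.le_of_dvd s0 d
    omega).symm).2 ⟨hs, h2.squarefree⟩, Nat.mul_pos s0 h2.pos, h3⟩

theorem mem {H D a b c p q r : ℕ} (ht : (a, b, c) ∈ Fam D) (hp : p ∈ Pr H D a 1 fun _ => 1)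
    (hq : q ∈ Pr H D b c fun _ => a * p) (hr : r ∈ Pr H D c (a * b) (tr a (a * p) (b * q))) :
    (a * p, b * q, c * r) ∈ Box H ∧ Loc (a * p : ℕ) (b * q : ℕ) (c * r : ℕ) := by
  obtain ⟨h1, h2, -⟩ := mem_filter.1 ht
  rw [Good.mem_Box] at h1
  dsimp only at h1 h2
  have a1 := sqf hp h2.of_mul_left.of_mul_left h1.1.2
  have a2 := sqf hq h2.of_mul_left.of_mul_right h1.2.1.2
  have a3 := sqf hr h2.of_mul_right h1.2.2.2
  refine ⟨Good.mem_Box.2 ⟨a1.2, a2.2, a3.2⟩, loc2 a1.1 a2.1 a3.1 (mem_filter.1 hp).2.2.2.1.2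
    (mem_filter.1 hq).2.2.2.1.2 fun l hl l1 => ?_⟩
  obtain ⟨c1, c2, c3⟩ := cop ht hl
  have ab0 : a * b ≠ 0 := h2.of_mul_left.ne_zero
  refine ⟨fun d => ?_, fun d => ?_, fun d => ?_⟩
  · have d' : l ∣ a := by_contra fun x => nd hp hl (Or.inr l1) x d
    refine ⟨nd hq hl (Or.inr l1) (c1 d').2.2.1, nd hr hl (Or.inr l1) (c1 d').2.2.2, ?_⟩
    have := ((mem_filter.1 hr).2.2.2.2 l (Nat.mem_primeFactors.2 ⟨hl, d'.mul_right b, ab0⟩)).2 l1
    rwa [tr, if_pos d'] at this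
  · have d' : l ∣ b := by_contra fun x => nd hq hl (Or.inr l1) x d
    refine ⟨nd hp hl (Or.inr l1) (c2 d').2.2.1, nd hr hl (Or.inr l1) (c2 d').2.2.2, ?_⟩
    have := ((mem_filter.1 hr).2.2.2.2 l (Nat.mem_primeFactors.2 ⟨hl, d'.mul_left a, ab0⟩)).2 l1
    rwa [tr, if_neg (c2 d').2.2.1] at this
  · have d' : l ∣ c := by_contra fun x => nd hr hl (Or.inr l1) x d
    exact ⟨nd hp hl (Or.inr l1) (c3 d').2.2.1, nd hq hl (Or.inr l1) (c3 d').2.2.2,
      ((mem_filter.1 hq).2.2.2.2 l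
        (Nat.mem_primeFactors.2 ⟨hl, d', h2.of_mul_right.ne_zero⟩)).2 l1⟩

theorem inj {H D a a' M M' p p' : ℕ} {τ τ' : ℕ → ℕ} (ha : 1 ≤ a' ∧ a' ≤ D) (hp : p ∈ Pr H D a M τ)
    (hp' : p' ∈ Pr H D a' M' τ') (e : a * p = a' * p') : a = a' ∧ p = p' := by
  obtain ⟨h1, h2, -⟩ := mem_filter.1 hp
  obtain ⟨-, h3, -⟩ := mem_filter.1 hp'
  have := (mem_Ioc.1 h1).1
  have e2 : p = p' := (Nat.prime_dvd_prime_iff_eq h2 h3).1
    ((h2.dvd_mul.1 (e ▸ dvd_mul_left p a)).resolve_left fun d => by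
      have := Nat.le_of_dvd ha.1 d
      omega)
  subst e2
  exact ⟨Nat.eq_of_mul_eq_mul_right h2.pos e, rfl⟩

theorem cnt (H D : ℕ) (T : Finset (ℕ × ℕ × ℕ)) (hT : T ⊆ Fam D) :
    ∑ t ∈ T, ∑ p ∈ Pr H D t.1 1 fun _ => 1, ∑ q ∈ Pr H D t.2.1 t.2.2 fun _ => t.1 * p,
      #(Pr H D t.2.2 (t.1 * t.2.1) (tr t.1 (t.1 * p) (t.2.1 * q))) ≤
      #{t ∈ Box H | Loc t.1 t.2.1 t.2.2} := by
  simp only [← card_sigma]
  refine card_le_card_of_injOn
    (fun x => (x.1.1 * x.2.1, x.1.2.1 * x.2.2.1, x.1.2.2 * x.2.2.2)) (fun x hx => ?_) ?_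
  · simp only [mem_coe, mem_sigma] at hx
    exact mem_coe.2 (mem_filter.2 (mem (hT hx.1) hx.2.1 hx.2.2.1 hx.2.2.2))
  · rintro ⟨⟨a, b, c⟩, p, q, r⟩ hx ⟨⟨a', b', c'⟩, p', q', r'⟩ hy e
    simp only [mem_coe, mem_sigma] at hx hy
    simp only [Prod.mk.injEq] at e
    have h1 := Good.mem_Box.1 (mem_filter.1 (hT hy.1)).1
    obtain ⟨rfl, rfl⟩ := inj h1.1 hx.2.1 hy.2.1 e.1
    obtain ⟨rfl, rfl⟩ := inj h1.2.1 hx.2.2.1 hy.2.2.1 e.2.1
    obtain ⟨rfl, rfl⟩ := inj h1.2.2 hx.2.2.2 hy.2.2.2 e.2.2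
    rfl

theorem om_mul {m n : ℕ} (h : Squarefree (m * n)) : om1 (m * n) = om1 m + om1 n := by
  have c := Nat.coprime_of_squarefree_mul h
  rw [om1, c.primeFactors_mul, filter_union,
    card_union_of_disjoint (disjoint_filter_filter c.disjoint_primeFactors)]
  rfl

end Low

/-- The sharp lower bound for positive coefficients. -/
def Low2St : Prop := ∃ c : ℝ, 0 < c ∧ ∀ᶠ H : ℕ in atTop,
  c * (H : ℝ) ^ 3 / Real.log H ≤ #{t ∈ Box H | Loc t.1 t.2.1 t.2.2}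

open Low in
theorem low2 : Low2St := by
  obtain ⟨C, C0, hC⟩ := pc 6
  obtain ⟨c, c0, hc⟩ := mass
  obtain ⟨N, hN⟩ := eventually_atTop.1 hc
  refine ⟨c / 80 ^ 2 / 2 / 20000 ^ 3, by positivity, ?_⟩
  filter_upwards [hC, (Real.tendsto_log_atTop.comp tendsto_natCast_atTop_atTop).eventually
    (eventually_ge_atTop (max (max (80 * N : ℝ) 80) (max (C + 1) ((36 * C + 2) / (c / 80 ^ 2 / 2))))),
    eventually_ge_atTop 1] with H h hL H1
  simp only [Function.comp, max_le_iff] at hL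
  obtain ⟨⟨l1, l2⟩, l3, l4⟩ := hL
  set L := Real.log H with hLd
  have H0 : (0 : ℝ) < H := by exact_mod_cast H1
  set D := ⌊Real.exp (L / 40)⌋₊ with hD
  have e1 := Real.add_one_le_exp (L / 80)
  have e2 : Real.exp (L / 40) = Real.exp (L / 80) * Real.exp (L / 80) := by
    rw [← Real.exp_add]; congr 1; ring
  have y1 : (D : ℝ) ≤ Real.exp (L / 40) := Nat.floor_le (Real.exp_pos _).le
  have y2 : Real.exp (L / 80) ≤ D := by
    have := Nat.lt_floor_add_one (Real.exp (L / 40))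
    rw [← hD] at this
    nlinarith
  have y3 : 1 ≤ D := by exact_mod_cast (by linarith : (1 : ℝ) ≤ D)
  have y4 : Real.log D ≤ L / 40 := (Real.log_le_iff_le_exp (by positivity)).2 y1
  have y5 : L / 80 ≤ Real.log D := (Real.le_log_iff_exp_le (by positivity)).2 y2
  have y6 : D ^ 40 ≤ H := by
    have := pow_le_pow_left₀ (by positivity) y1 40
    rw [← Real.exp_nat_mul, show ((40 : ℕ) : ℝ) * (L / 40) = L by push_cast; ring,
      Real.exp_log H0] at this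
    exact_mod_cast this
  obtain ⟨Bad, hB⟩ := h D y6
  have L1 : 1 ≤ L := by linarith
  have m1 := hN D (by exact_mod_cast (by linarith : (N : ℝ) ≤ D))
  have m2 := badm (K := 16 * L ^ 5) (by positivity) (by positivity) fun s hs => (hB s hs).1
  have m3 := sum_filter_add_sum_filter_not (Fam D)
    (fun t => Bad t.2.1 t.2.2 ∨ Bad t.2.2 (t.1 * t.2.1)) fun t => G (t.1 * t.2.1 * t.2.2)
  have m4 : (1 + Real.log D) ^ 2 * (C / L ^ 6) + (1 + Real.log D) *
      (16 * L ^ 5 * (C / L ^ 6) + (1 + Real.log D) ^ 4 / (16 * L ^ 5)) ≤ 36 * C + 2 := by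
    have a : 1 + Real.log D ≤ 2 * L := by linarith
    have b : 0 ≤ 1 + Real.log D := by linarith
    calc _ ≤ (2 * L) ^ 2 * (C / L ^ 2) + (2 * L) *
          (16 * L ^ 5 * (C / L ^ 6) + (2 * L) ^ 4 / (16 * L ^ 5)) := by
          gcongr
          norm_num
      _ = _ := by field_simp; ring
  have m5 : c / 80 ^ 2 / 2 * L ^ 2 ≤ ∑ t ∈ Fam D with
      ¬ (Bad t.2.1 t.2.2 ∨ Bad t.2.2 (t.1 * t.2.1)), G (t.1 * t.2.1 * t.2.2) := by
    have a : c * (L / 80) ^ 2 ≤ c * Real.log D ^ 2 := by gcongr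
    rw [div_le_iff₀ (by positivity)] at l4
    have b : L * (c / 80 ^ 2 / 2) ≤ L ^ 2 * (c / 80 ^ 2 / 2) := by gcongr; nlinarith
    linarith
  refine le_trans ?_ (Nat.cast_le.2 (cnt H D _ (filter_subset
    (fun t => ¬ (Bad t.2.1 t.2.2 ∨ Bad t.2.2 (t.1 * t.2.1))) _)))
  calc _ = (H / (20000 * L)) ^ 3 * (c / 80 ^ 2 / 2 * L ^ 2) := by field_simp
    _ ≤ _ := mul_le_mul_of_nonneg_left m5 (by positivity)
    _ ≤ _ := ?_
  push_cast
  rw [mul_sum]
  refine sum_le_sum fun t ht => ?_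
  obtain ⟨a, b, c⟩ := t
  obtain ⟨t1, t2⟩ := mem_filter.1 ht
  obtain ⟨h1, h2, h3⟩ := mem_filter.1 t1
  rw [Good.mem_Box] at h1
  rw [not_or] at t2
  dsimp only at h1 h2 h3 t2 ⊢
  have k1 := (hB a (mem_Icc.2 h1.1)).2 1 (fun _ => 1) squarefree_one (Nat.one_le_pow _ _ y3)
    (fun x => by
      have := (single_le_sum (f := fun M : ℕ => (1 : ℝ) / M) (fun _ _ => by positivity)
        (mem_filter.2 ⟨mem_Icc.2 ⟨le_rfl, Nat.one_le_pow _ _ y3⟩, x⟩)).trans
        (hB a (mem_Icc.2 h1.1)).1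
      rw [Nat.cast_one, div_one, le_div_iff₀ (by positivity)] at this
      linarith [le_self_pow₀ L1 (show 6 ≠ 0 by norm_num)])
    (fun x => h3 ((x.mul_right b).mul_right c)) (by simp)
  have a0 : (0 : ℝ) < a := by exact_mod_cast h1.1.1
  have b0 : (0 : ℝ) < b := by exact_mod_cast h1.2.1.1
  have c0 : (0 : ℝ) < c := by exact_mod_cast h1.2.2.1
  calc _ = H / (20000 * L * a * 3 ^ om1 1) * (H / (20000 * L * b * 3 ^ om1 c) *
        (H / (20000 * L * c * 3 ^ om1 (a * b)))) := by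
        rw [G, om_mul h2, show om1 1 = 0 by simp [om1]]
        push_cast
        field_simp
        ring
    _ ≤ _ := mul_le_mul_of_nonneg_right k1 (by positivity)
    _ ≤ _ := by
        rw [← nsmul_eq_mul]
        refine card_nsmul_le_sum _ _ _ fun p hp => ?_
        refine (mul_le_mul_of_nonneg_right ((hB b (mem_Icc.2 h1.2.1)).2 c (fun _ => a * p)
          h2.of_mul_right (h1.2.2.2.trans (Nat.le_self_pow two_ne_zero D)) t2.1
          (fun x => h3 ((x.mul_left a).mul_right c)) fun l hl => ?_) (by positivity)).trans ?_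
        · have l1 := Nat.prime_of_mem_primeFactors hl
          have := (cop t1 l1).2.2 (Nat.dvd_of_mem_primeFactors hl)
          exact ⟨this.1, this.2.2.2, nd hp l1 (Or.inl this.2.1) this.2.2.1⟩
        rw [← nsmul_eq_mul]
        refine card_nsmul_le_sum _ _ _ fun q hq => (hB c (mem_Icc.2 h1.2.2)).2 (a * b) _
          h2.of_mul_left (by rw [sq]; exact Nat.mul_le_mul h1.1.2 h1.2.1.2) t2.2
          (fun x => h3 (x.mul_left _)) fun l hl => ?_
        have l1 := Nat.prime_of_mem_primeFactors hl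
        rw [tr]
        split_ifs with d
        · have := (cop t1 l1).1 d
          exact ⟨this.1, this.2.2.2, nd hq l1 (Or.inl this.2.1) this.2.2.1⟩
        · have := (cop t1 l1).2.1 ((l1.dvd_mul.1 (Nat.dvd_of_mem_primeFactors hl)).resolve_left d)
          exact ⟨this.1, this.2.2.2, nd hp l1 (Or.inl this.2.1) d⟩

end Pool.Agent.Lib.MP_65b7ad_nt.DL
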