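import Pool.Agent.Lib.MP_65b7ad_nt.DL.Cls
import Pool.Agent.Lib.MP_d6ddbd_nt.L.Bv
import Pool.Agent.Lib.MP_f64879_nt.Low

/-!
Diagonal plane cubics, sharp lower bound: the number of admissible primes.
-/

open Finset Filter ArithmeticFunction

noncomputable section

namespace Pool.Agent.Lib.MP_65b7ad_nt.DL

open Classical DC
open MP_f64879_nt (W Mx M0 ap W_small W_nonneg LW_nonneg bv M0_ge tot_prod)
open MP_d6ddbd_nt.L (wt)
open MP_d6ddbd_nt.L.Bv (Pw Pw_le W_le dif_nonneg)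

namespace PC

theorem fib {s : ℕ} {S : Finset ℕ} {τ : ℕ → ℕ} (hS : ∀ l ∈ S, l.Prime) (u : ℝ) :
    ∑ α ∈ range (27 * ∏ l ∈ S, l) with Adm s S τ α, ap u (27 * ∏ l ∈ S, l) α =
      ∑ n ∈ range (Mx u) with Adm s S τ n, Λ n * W u n := by
  have p0 : 0 < 27 * ∏ l ∈ S, l := Nat.mul_pos (by norm_num) (prod_pos fun l hl => (hS l hl).pos)
  rw [← sum_fiberwise_of_maps_to (s := {n ∈ range (Mx u) | Adm s S τ n})
    (t := {α ∈ range (27 * ∏ l ∈ S, l) | Adm s S τ α}) (g := fun n => n % (27 * ∏ l ∈ S, l))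
    fun n hn => mem_filter.2 ⟨mem_range.2 (Nat.mod_lt _ p0),
      (mem_filter.1 hn).2.mod (Nat.mod_modEq _ _)⟩]
  refine sum_congr rfl fun α hα => sum_congr ?_ fun _ _ => rfl
  obtain ⟨h1, h2⟩ := mem_filter.1 hα
  rw [filter_filter]
  refine filter_congr fun n _ => ?_
  rw [Nat.ModEq, Nat.mod_eq_of_lt (mem_range.1 h1)]
  exact ⟨fun h => ⟨h2.mod (by rw [Nat.ModEq, h, Nat.mod_eq_of_lt (mem_range.1 h1)]), h⟩,
    fun h => h.2⟩

/-- A prime in the support of the weight. -/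
def Big (u : ℝ) (n : ℕ) : Prop := n.Prime ∧ Real.exp (u - 1) < n

theorem cnt {u : ℝ} (hu : 0 ≤ u) (Q : ℕ → Prop) :
    ∑ n ∈ range (Mx u) with Q n, Λ n * W u n - Pw u ≤
      #{n ∈ range (Mx u) | Big u n ∧ Q n} *
        ((u + 1) * Real.exp (1 - u)) := by
  have h1 : ∑ n ∈ range (Mx u) with Q n, (Λ n * W u n - wt u n) ≤ Pw u :=
    sum_le_sum_of_subset_of_nonneg (filter_subset _ _) fun n _ _ => dif_nonneg u n
  rw [sum_sub_distrib] at h1
  have h2 : ∑ n ∈ range (Mx u) with Q n, wt u n =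
      ∑ n ∈ range (Mx u) with Big u n ∧ Q n, wt u n := by
    refine (sum_subset (fun n hn => mem_filter.2 ⟨(mem_filter.1 hn).1, (mem_filter.1 hn).2.2⟩)
      fun n hn h => ?_).symm
    rw [wt]
    split_ifs with hp
    · rw [W_small (not_lt.1 fun l => h (mem_filter.2 ⟨(mem_filter.1 hn).1, ⟨hp, l⟩,
        (mem_filter.1 hn).2⟩)), mul_zero]
    · rfl
  have h3 := sum_le_card_nsmul {n ∈ range (Mx u) | Big u n ∧ Q n}
    (wt u) ((u + 1) * Real.exp (1 - u)) fun n hn => by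
      obtain ⟨a1, ⟨a2, -⟩, -⟩ := mem_filter.1 hn
      rw [wt, if_pos a2]
      refine mul_le_mul ?_ (W_le u n) (W_nonneg u n) (by linarith)
      rw [Real.log_le_iff_le_exp (by exact_mod_cast a2.pos)]
      exact (Nat.le_floor_iff (Real.exp_pos _).le).1 (Nat.lt_succ_iff.1 (mem_range.1 a1))
  rw [nsmul_eq_mul] at h3
  linarith

theorem pw3 (S : Finset ℕ) (hS : ∀ l ∈ S, l.Prime) : 3 ^ #{l ∈ S | l % 3 = 1} ≤ ∏ l ∈ S, l := by
  rw [← prod_const]
  refine (prod_le_prod' fun l hl => ?_).trans (prod_le_prod_of_subset_of_one_le' (filter_subset _ _)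
    fun l hl _ => (hS l hl).pos)
  have := (hS l (mem_filter.1 hl).1).two_le
  have := (mem_filter.1 hl).2
  omega

theorem pc0 (B : ℕ) : ∃ C : ℝ, 0 ≤ C ∧ ∀ᶠ u : ℝ in atTop, ∃ Bad : ℕ → Prop,
    (∀ D : ℕ, 27 * (D : ℝ) ≤ Real.exp (u / 10) →
      ∑ M ∈ Icc 1 D with Bad M, (1 : ℝ) / M ≤ C / u ^ B) ∧
    ∀ (s M : ℕ) (τ : ℕ → ℕ), Squarefree M → 27 * (M : ℝ) ≤ Real.exp (u / 10) → ¬ Bad M → ¬ 3 ∣ s →
      (∀ l ∈ M.primeFactors, l ≠ 3 ∧ ¬ l ∣ s ∧ ¬ l ∣ τ l) →
      Real.exp (u - 1) / (2160 * (u + 1) * 3 ^ om1 M) ≤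
        #{n ∈ range (Mx u) | Big u n ∧ Adm s M.primeFactors τ n} := by
  obtain ⟨C, hC, h⟩ := bv B
  obtain ⟨C2, hC2, h2⟩ := Pw_le
  refine ⟨1620 * C, by positivity, ?_⟩
  have t : Tendsto (fun u : ℝ => C2 * Real.exp (-(2 / 5 * u))) atTop (nhds 0) := by
    simpa using (Real.tendsto_exp_neg_atTop_nhds_zero.comp
      (tendsto_id.const_mul_atTop (show (0 : ℝ) < 2 / 5 by norm_num))).const_mul C2
  filter_upwards [M0_ge, eventually_ge_atTop 3,
    t.eventually (gt_mem_nhds (show (0 : ℝ) < 1 / 100 by norm_num))] with u m0 hu hs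
  obtain ⟨E, e0, e1, e2⟩ := h u hu
  refine ⟨fun M => M0 u / (2 * (27 * M).totient) < E (27 * M), fun D hD => ?_,
    fun s M τ hM hD hb h3 hS => ?_⟩
  · have a1 : ∑ M ∈ Icc 1 D, E (27 * M) ≤ C / u ^ B := by
      refine le_trans ?_ (e2 (27 * D) (by exact_mod_cast hD))
      rw [← sum_image (s := Icc 1 D) (g := fun M => 27 * M) (f := E) fun a _ b _ e => by
        simpa using e]
      refine sum_le_sum_of_subset_of_nonneg (fun m hm => ?_) fun m _ _ => e0 m
      obtain ⟨a, ha, rfl⟩ := mem_image.1 hm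
      rw [mem_Icc] at ha ⊢
      omega
    rw [mul_div_assoc]
    refine le_trans ?_ (mul_le_mul_of_nonneg_left a1 (by norm_num))
    rw [mul_sum, sum_filter]
    refine sum_le_sum fun M hM => ?_
    split_ifs with hb
    · have M1 : (1 : ℝ) ≤ M := by exact_mod_cast (mem_Icc.1 hM).1
      have f1 : ((27 * M).totient : ℝ) ≤ 27 * M := by exact_mod_cast Nat.totient_le _
      have f0 : (0 : ℝ) < (27 * M).totient := by
        exact_mod_cast Nat.totient_pos.2 (by have := (mem_Icc.1 hM).1; omega)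
      rw [div_lt_iff₀ (by positivity)] at hb
      rw [div_le_iff₀ (by positivity)]
      nlinarith [mul_le_mul_of_nonneg_left f1 (e0 (27 * M))]
    · exact mul_nonneg (by norm_num) (e0 _)
  · have hp : ∀ l ∈ M.primeFactors, l.Prime := fun l hl => Nat.prime_of_mem_primeFactors hl
    have eM := Nat.prod_primeFactors_of_squarefree hM
    have M0' : 0 < M := Nat.pos_of_ne_zero hM.ne_zero
    have k1 := cls τ h3 M.primeFactors fun l hl => ⟨hp l hl, hS l hl⟩
    have k2 := fib (s := s) (τ := τ) hp u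
    have k3 := cnt (u := u) (by linarith) (Adm s M.primeFactors τ)
    have k4 := pw3 _ hp
    have c3 : (27 : ℕ).Coprime M := Nat.Coprime.pow_left 3 (Nat.prime_three.coprime_iff_not_dvd.2
      fun d => (hS 3 (Nat.mem_primeFactors.2 ⟨Nat.prime_three, d, hM.ne_zero⟩)).1 rfl)
    have k5 : ((27 * M).totient : ℝ) = 18 * (∏ l ∈ M.primeFactors, (l - 1) : ℕ) := by
      rw [Nat.totient_mul c3, show Nat.totient 27 = 18 by decide, Nat.cast_mul, Nat.cast_prod,
        prod_congr rfl fun l hl => Nat.cast_pred (hp l hl).pos, ← tot_prod _ hp, eM]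
      norm_num
    have k6 := card_nsmul_le_sum {α ∈ range (27 * ∏ l ∈ M.primeFactors, l) |
      Adm s M.primeFactors τ α} (ap u (27 * ∏ l ∈ M.primeFactors, l))
      (M0 u / (2 * (27 * M).totient)) fun α hα => by
        have c := (mem_filter.1 hα).2.cop hp
        rw [eM] at c ⊢
        have := (abs_le.1 (e1 (27 * M) α (by omega) c)).1
        have e : M0 u / (27 * M).totient = 2 * (M0 u / (2 * (27 * M).totient)) := by
          rw [← mul_div_assoc, mul_div_mul_left _ _ two_ne_zero]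
        linarith [not_lt.1 hb]
    rw [k2, nsmul_eq_mul, k5] at k6
    rw [eM] at k4
    change _ ≤ 3 ^ om1 M * _ at k1
    change 3 ^ om1 M ≤ _ at k4
    set A := #{α ∈ range (27 * ∏ l ∈ M.primeFactors, l) | Adm s M.primeFactors τ α}
    set F := ∏ l ∈ M.primeFactors, (l - 1) with hF
    have F0 : (0 : ℝ) < F := by
      exact_mod_cast prod_pos fun l hl => Nat.sub_pos_of_lt (hp l hl).one_lt
    have k7 : (F : ℝ) ≤ 3 ^ om1 M * A := by exact_mod_cast k1
    have k8 : (3 : ℝ) ^ om1 M ≤ M := by exact_mod_cast k4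
    have T0 : (0 : ℝ) < 3 ^ om1 M := by positivity
    have k9 : 1 / (1080 * 3 ^ om1 M) ≤ (A : ℝ) * (M0 u / (2 * (18 * F))) := by
      rw [← mul_div_assoc, div_le_div_iff₀ (by positivity) (by positivity)]
      nlinarith [mul_le_mul m0 k7 F0.le (by linarith)]
    have k10 : Pw u ≤ 1 / (2160 * 3 ^ om1 M) := by
      rw [le_div_iff₀ (by positivity)]
      calc _ ≤ C2 * Real.exp (-(u / 2)) * (80 * Real.exp (u / 10)) :=
            mul_le_mul (h2 u) (by linarith) (by positivity) (by positivity)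
        _ = 80 * (C2 * Real.exp (-(2 / 5 * u))) := by
            rw [show -(2 / 5 * u) = -(u / 2) + u / 10 by ring, Real.exp_add]; ring
        _ ≤ 1 := by linarith
    have k11 : 1 / (1080 * 3 ^ om1 M : ℝ) = 2 * (1 / (2160 * 3 ^ om1 M)) := by field_simp; norm_num
    have k12 : Real.exp (u - 1) / (2160 * (u + 1) * 3 ^ om1 M) =
        1 / (2160 * 3 ^ om1 M) / ((u + 1) * Real.exp (1 - u)) := by
      rw [show 1 - u = -(u - 1) by ring, Real.exp_neg]
      field_simp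
    rw [k12, div_le_iff₀ (by positivity)]
    linarith

end PC

/-- The admissible large primes. -/
def Pr (H D s M : ℕ) (τ : ℕ → ℕ) : Finset ℕ :=
  {n ∈ Ioc D H | n.Prime ∧ s * n ≤ H ∧ Adm s M.primeFactors τ n}

theorem pc (B : ℕ) : ∃ C : ℝ, 0 ≤ C ∧ ∀ᶠ H : ℕ in atTop, ∀ D : ℕ, D ^ 40 ≤ H →
    ∃ Bad : ℕ → ℕ → Prop, ∀ s ∈ Icc 1 D,
      ∑ M ∈ Icc 1 (D ^ 2) with Bad s M, (1 : ℝ) / M ≤ C / Real.log H ^ B ∧
      ∀ (M : ℕ) (τ : ℕ → ℕ), Squarefree M → M ≤ D ^ 2 → ¬ Bad s M → ¬ 3 ∣ s →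
        (∀ l ∈ M.primeFactors, l ≠ 3 ∧ ¬ l ∣ s ∧ ¬ l ∣ τ l) →
        H / (20000 * Real.log H * s * 3 ^ om1 M) ≤ #(Pr H D s M τ) := by
  obtain ⟨C, hC, h⟩ := PC.pc0 B
  obtain ⟨U, hU⟩ := eventually_atTop.1 h
  refine ⟨C * 2 ^ B, by positivity, ?_⟩
  filter_upwards [(Real.tendsto_log_atTop.comp tendsto_natCast_atTop_atTop).eventually
    (eventually_ge_atTop (max (2 * U) 1000)), eventually_ge_atTop 1] with H hL H1 D hD
  simp only [Function.comp, max_le_iff] at hL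
  have H0 : (0 : ℝ) < H := by exact_mod_cast H1
  have key : ∀ s ∈ Icc 1 D, ∃ u : ℝ, Real.exp (u + 1) = H / s ∧ u + 1 ≤ Real.log H ∧
      9 / 10 * Real.log H ≤ u ∧ 27 * ((D ^ 2 : ℕ) : ℝ) ≤ Real.exp (u / 10) ∧
      (D : ℝ) ≤ Real.exp (u - 1) := fun s hs => by
    obtain ⟨s1, s2⟩ := mem_Icc.1 hs
    have s0 : (1 : ℝ) ≤ s := by exact_mod_cast s1
    have D0 : (0 : ℝ) < D := by exact_mod_cast (by omega : 0 < D)
    have d1 : 40 * Real.log D ≤ Real.log H := by
      have := Real.log_le_log (by positivity) (show (D : ℝ) ^ 40 ≤ H by exact_mod_cast hD)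
      rwa [Real.log_pow] at this
    have d2 : Real.log s ≤ Real.log D := Real.log_le_log (by linarith) (by exact_mod_cast s2)
    have d3 := Real.log_nonneg s0
    have d4 : Real.log 27 ≤ 26 := by linarith [Real.log_le_sub_one_of_pos (show (0 : ℝ) < 27 by norm_num)]
    refine ⟨Real.log H - Real.log s - 1, ?_, by linarith, by linarith, ?_, ?_⟩
    · rw [sub_add_cancel, Real.exp_sub, Real.exp_log H0, Real.exp_log (by linarith)]
    · rw [Nat.cast_pow, ← Real.log_le_iff_le_exp (by positivity),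
        Real.log_mul (by norm_num) (by positivity), Real.log_pow]
      push_cast
      linarith
    · rw [← Real.log_le_iff_le_exp D0]
      linarith
  choose! u u1 u2 u3 u4 u5 using key
  choose! Bad b1 b2 using hU
  refine ⟨fun s => Bad (u s), fun s hs => ?_⟩
  have uU : U ≤ u s := by linarith [u3 s hs]
  have u0 : Real.log H / 2 ≤ u s := by linarith [u3 s hs]
  have s0 : (0 : ℝ) < s := by exact_mod_cast (mem_Icc.1 hs).1
  refine ⟨(b1 _ uU _ (u4 s hs)).trans ?_, fun M τ h1 h2 h3 h4 h5 => ?_⟩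
  · have : 0 < Real.log H / 2 := by linarith
    calc _ ≤ C / (Real.log H / 2) ^ B := by gcongr
      _ = _ := by rw [div_pow]; field_simp
  · refine le_trans ?_ ((b2 _ uU s M τ h1 (le_trans (by gcongr) (u4 s hs)) h3 h4 h5).trans
      (Nat.cast_le.2 (card_le_card fun n hn => ?_)))
    · have e : Real.exp (u s - 1) = H / s / Real.exp 1 ^ 2 := by
        rw [← u1 s hs, ← Real.exp_nat_mul, ← Real.exp_sub]
        congr 1
        push_cast
        ring
      have e3 : Real.exp 1 ^ 2 ≤ 9 := by nlinarith [Real.exp_one_lt_d9, Real.exp_pos 1]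
      have := u2 s hs
      have p1 : 0 < u s + 1 := by linarith
      have p2 : 0 ≤ Real.log H := by linarith
      have p3 : 0 ≤ Real.log H * s * 3 ^ om1 M := by positivity
      rw [e, div_div, div_div]
      refine div_le_div_of_nonneg_left H0.le (by positivity) ?_
      calc _ ≤ s * (9 * (2160 * Real.log H * 3 ^ om1 M)) := by gcongr
        _ ≤ _ := by linarith
    · obtain ⟨a1, ⟨a2, a3⟩, a4⟩ := mem_filter.1 hn
      have a5 := (Nat.le_floor_iff (Real.exp_pos _).le).1 (Nat.lt_succ_iff.1 (mem_range.1 a1))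
      rw [u1 s hs, le_div_iff₀ s0] at a5
      have a6 : s * n ≤ H := by
        rw [mul_comm]
        exact_mod_cast a5
      refine mem_filter.2 ⟨mem_Ioc.2 ⟨by exact_mod_cast (u5 s hs).trans_lt a3, ?_⟩, a2, a6, a4⟩
      exact (Nat.le_mul_of_pos_left _ (mem_Icc.1 hs).1).trans a6

end Pool.Agent.Lib.MP_65b7ad_nt.DL
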